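import Pool.Agent.W209.KT.Stm

set_option autoImplicit false

namespace Pool.Agent.W445.KT

open Pool.Agent.W209.KT

lemma D_pos (k : ℕ) : 0 < D k := by unfold D; positivity
lemma E_pos (k : ℕ) : 0 < E k := by unfold E; positivity
lemma E_le (k : ℕ) : E k ≤ D k := Nat.pow_log_le_self 3 (D_pos k).ne'
lemma D_lt (k : ℕ) : D k < 3 * E k := by
  have h := Nat.lt_pow_succ_log_self (b := 3) (by norm_num) (D k)
  have h2 : 3 ^ (Nat.log 3 (D k)).succ = 3 * E k := by
    rw [pow_succ, mul_comm]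
    rfl
  rw [h2] at h
  exact h
lemma F_pos (k : ℕ) : 0 < F k := by
  have := D_pos k
  unfold F
  positivity
lemma coprDE (k : ℕ) : IsCoprime (D k : ℤ) (E k : ℤ) := by
  have h : Nat.Coprime (D k) (E k) := Nat.Coprime.pow _ _ (by norm_num)
  exact Nat.isCoprime_iff_coprime.mpr h

lemma card_ap (S : Finset ℤ) (P : ℕ) (hP : 0 < P) (B : ℝ)
    (h1 : ∀ x ∈ S, ∀ y ∈ S, (P : ℤ) ∣ x - y)
    (h2 : ∀ x ∈ S, ∀ y ∈ S, |(x : ℝ) - y| ≤ B) : S.card ≤ ⌊B / P⌋₊ + 1 := by
  rcases S.eq_empty_or_nonempty with he | hne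
  · rw [he]; simp
  set y0 := S.min' hne with hy0
  have hy0S : y0 ∈ S := S.min'_mem hne
  have hP' : (0 : ℤ) < P := by exact_mod_cast hP
  have hPr : (0 : ℝ) < P := by exact_mod_cast hP
  rw [← Finset.card_range (⌊B / P⌋₊ + 1)]
  refine Finset.card_le_card_of_injOn (fun y => ((y - y0) / P).toNat) ?_ ?_
  · intro y hy
    have hy : y ∈ S := hy
    obtain ⟨c, hc⟩ := h1 y hy y0 hy0S
    have hle : y0 ≤ y := S.min'_le y hy
    have hc0 : 0 ≤ c := by
      by_contra hcn
      push Not at hcn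
      have : (P : ℤ) * c < 0 := mul_neg_of_pos_of_neg hP' hcn
      omega
    have hdiv : (y - y0) / (P : ℤ) = c := by
      rw [hc, Int.mul_ediv_cancel_left _ hP'.ne']
    have hfl : c.toNat ≤ ⌊B / P⌋₊ := by
      apply Nat.le_floor
      have h3 : ((c.toNat : ℕ) : ℝ) = (c : ℝ) := by
        have : ((c.toNat : ℕ) : ℤ) = c := Int.toNat_of_nonneg hc0
        exact_mod_cast this
      rw [h3, le_div_iff₀ hPr]
      have h4 := h2 y hy y0 hy0S
      have h5 : (y : ℝ) - y0 = P * c := by exact_mod_cast hc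
      rw [h5] at h4
      have h6 := le_abs_self ((P : ℝ) * c)
      linarith
    simp only [Finset.coe_range, Set.mem_Iio]
    rw [hdiv]
    omega
  · intro x hx y hy hxy
    have hx : x ∈ S := hx
    have hy : y ∈ S := hy
    obtain ⟨c, hc⟩ := h1 x hx y0 hy0S
    obtain ⟨c', hc'⟩ := h1 y hy y0 hy0S
    have hle : y0 ≤ x := S.min'_le x hx
    have hle' : y0 ≤ y := S.min'_le y hy
    have hc0 : 0 ≤ c := by
      by_contra hcn
      push Not at hcn
      have : (P : ℤ) * c < 0 := mul_neg_of_pos_of_neg hP' hcn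
      omega
    have hc0' : 0 ≤ c' := by
      by_contra hcn
      push Not at hcn
      have : (P : ℤ) * c' < 0 := mul_neg_of_pos_of_neg hP' hcn
      omega
    simp only [] at hxy
    rw [hc, hc', Int.mul_ediv_cancel_left _ hP'.ne', Int.mul_ediv_cancel_left _ hP'.ne'] at hxy
    have : c = c' := by omega
    subst this
    omega

lemma key (A : Fin 2 → Fin 11 → ℝ) (s : ℕ → Fin 2 → Fin 11 → ℤ) (hG : Good A s) (k L : ℕ)
    (ψ : ℝ) (hLψ : (L : ℝ) * 20 ≤ ψ * (D k : ℝ) ^ 36) (y : ℤ) (hy : |y| ≤ (L : ℤ))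
    (hn : ∀ j, nrm (A j 10 * y) ≤ ψ) (hψ : 0 < ψ) (j : Fin 2) :
    |v j * y / F k - (((p k j : ℤ) * round (A j 10 * y) - s k j 10 * y : ℤ) : ℝ)| ≤
      2 * ψ * D k := by
  have hd0 : (0 : ℝ) < D k := by exact_mod_cast D_pos k
  have hf0 := F_pos k
  have hp0 : (0 : ℝ) < p k j ∧ (p k j : ℝ) ≤ D k := by
    unfold p
    split_ifs
    · exact ⟨hd0, le_refl _⟩
    · exact ⟨by exact_mod_cast E_pos k, by exact_mod_cast E_le k⟩
  obtain ⟨hp0, hpd⟩ := hp0
  have hcl : |A j 10 - ((s k j 10 : ℝ) + v j / F k) / p k j| ≤ 20 / (D k : ℝ) ^ 36 := by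
    have h := hG.close k j 10
    have hg : g (u k) 10 = 1 := by
      have h10 : ((10 : Fin 11) : ℕ) = 10 := rfl
      simp [g, h10]
    rw [hg] at h
    have e : A j 10 - ((s k j 10 : ℝ) + v j / F k) / p k j =
        A j 10 - s k j 10 / p k j - v j / (F k * p k j) * 1 := by
      field_simp
      ring
    rw [e]
    exact h
  have e1 : |A j 10 * y - (round (A j 10 * y) : ℝ)| ≤ ψ := hn j
  have hyL : |(y : ℝ)| ≤ L := by exact_mod_cast hy
  have e2 : |(A j 10 - ((s k j 10 : ℝ) + v j / F k) / p k j) * y| ≤ ψ := by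
    rw [abs_mul]
    calc _ ≤ 20 / (D k : ℝ) ^ 36 * L := mul_le_mul hcl hyL (abs_nonneg _) (by positivity)
      _ = (L * 20) / (D k : ℝ) ^ 36 := by ring
      _ ≤ ψ := by rw [div_le_iff₀ (by positivity)]; exact hLψ
  have e3 : |((s k j 10 : ℝ) + v j / F k) / p k j * y - (round (A j 10 * y) : ℝ)| ≤ 2 * ψ := by
    have e : ((s k j 10 : ℝ) + v j / F k) / p k j * y - (round (A j 10 * y) : ℝ) =
        (A j 10 * y - (round (A j 10 * y) : ℝ)) -
          (A j 10 - ((s k j 10 : ℝ) + v j / F k) / p k j) * y := by ring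
    rw [e]
    refine (abs_sub _ _).trans ?_
    linarith
  have e4 : v j * y / F k - (((p k j : ℤ) * round (A j 10 * y) - s k j 10 * y : ℤ) : ℝ) =
      p k j * (((s k j 10 : ℝ) + v j / F k) / p k j * y - (round (A j 10 * y) : ℝ)) := by
    push_cast
    field_simp
    ring
  rw [e4, abs_mul, abs_of_pos hp0]
  calc (p k j : ℝ) * _ ≤ D k * (2 * ψ) := mul_le_mul hpd e3 (abs_nonneg _) hd0.le
    _ = 2 * ψ * D k := by ring

theorem CB0 (_h1 : S_cov) (h2 : S_sq) : S_CB0 := by
  classical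
  obtain ⟨C0, hC0, hsq⟩ := h2
  refine ⟨12 * (1 + 10 * C0), by positivity, ?_⟩
  intro A s hG k L ψ hψ hψD hL hLψ
  have hd0 : (0 : ℝ) < D k := by exact_mod_cast D_pos k
  have hf0 := F_pos k
  set d : ℝ := (D k : ℝ) with hd
  set f : ℝ := F k with hf
  have hψd : ψ * d ≤ 1 / 100 := by linarith
  have hψd0 : 0 < ψ * d := mul_pos hψ hd0
  set m : Fin 2 → ℤ → ℤ := fun j y => (p k j : ℤ) * round (A j 10 * y) - s k j 10 * y with hm
  have key' : ∀ y : ℤ, |y| ≤ (L : ℤ) → (∀ j, nrm (A j 10 * y) ≤ ψ) → ∀ j,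
      |v j * y / f - (m j y : ℝ)| ≤ 2 * ψ * d := fun y hy hn j =>
    key A s hG k L ψ hLψ y hy hn hψ j
  have hv0 : v 0 = 1 := by simp [v]
  have hv1 : v 1 = Real.sqrt 2 := by simp [v]
  have hs2 : Real.sqrt 2 ≤ 3 / 2 := by
    rw [Real.sqrt_le_left (by norm_num)]
    norm_num
  have hs0 : 0 ≤ Real.sqrt 2 := Real.sqrt_nonneg _
  have hm01 : ∀ y : ℤ, |y| ≤ (L : ℤ) → (∀ j, nrm (A j 10 * y) ≤ ψ) →
      |Real.sqrt 2 * (m 0 y : ℝ) - m 1 y| ≤ 5 * ψ * d := by
    intro y hy hn
    have a0 := key' y hy hn 0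
    have a1 := key' y hy hn 1
    rw [hv0, one_mul] at a0
    rw [hv1] at a1
    have e : Real.sqrt 2 * (m 0 y : ℝ) - m 1 y =
        -(Real.sqrt 2 * ((y : ℝ) / f - m 0 y)) + (Real.sqrt 2 * y / f - m 1 y) := by ring
    rw [e]
    refine (abs_add_le _ _).trans ?_
    rw [abs_neg, abs_mul, abs_of_nonneg hs0]
    have a2 : Real.sqrt 2 * |(y : ℝ) / f - m 0 y| ≤ 3 / 2 * (2 * ψ * d) :=
      mul_le_mul hs2 a0 (abs_nonneg _) (by norm_num)
    linarith
  set T : ℕ := ⌊(L : ℝ) / f + 1 / 50⌋₊ with hT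
  set S' : Finset ℤ := (Finset.Icc (-(L : ℤ)) L).filter (fun y => ∀ j, nrm (A j 10 * y) ≤ ψ)
    with hS'
  set M' : Finset ℤ := (Finset.Icc (-(T : ℤ)) T).filter
    (fun n => nrm (Real.sqrt 2 * n) ≤ 5 * ψ * d) with hM'
  have hcnt : cnt (fun j => A j 10) L ψ = S'.card := by
    unfold cnt
    have : ({y : ℤ | |y| ≤ (L : ℤ) ∧ ∀ j, nrm (A j 10 * y) ≤ ψ} : Set ℤ) = ↑S' := by
      ext y
      simp [hS', abs_le]
    rw [this, Set.ncard_coe_finset]
  have hMc : (M'.card : ℝ) ≤ 1 + C0 * T * (5 * ψ * d) := by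
    have h := hsq T (5 * ψ * d) (by positivity)
    have : ({n : ℤ | |n| ≤ (T : ℤ) ∧ nrm (Real.sqrt 2 * n) ≤ 5 * ψ * d} : Set ℤ) = ↑M' := by
      ext y
      simp [hM', abs_le]
    rw [this, Set.ncard_coe_finset] at h
    exact h
  have hTle : (T : ℝ) ≤ 2 * (L / f) := by
    have hLf : 0 ≤ (L : ℝ) / f := by positivity
    by_cases hT0 : T = 0
    · rw [hT0]; simp; positivity
    · have h1 : (1 : ℝ) ≤ T := by exact_mod_cast Nat.one_le_iff_ne_zero.mpr hT0
      have h2 : (T : ℝ) ≤ L / f + 1 / 50 := Nat.floor_le (by positivity)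
      linarith
  set P : ℕ := D k * E k with hP
  have hP0 : 0 < P := Nat.mul_pos (D_pos k) (E_pos k)
  set B : ℝ := min (4 * ψ * d * f) (2 * L) with hB
  have hB0 : 0 ≤ B := le_min (by positivity) (by positivity)
  have hmem : ∀ y ∈ S', |y| ≤ (L : ℤ) ∧ ∀ j, nrm (A j 10 * y) ≤ ψ := by
    intro y hy
    rw [hS', Finset.mem_filter, Finset.mem_Icc] at hy
    exact ⟨abs_le.mpr hy.1, hy.2⟩
  have hcard : S'.card ≤ (⌊B / P⌋₊ + 1) * M'.card := by
    apply Finset.card_le_mul_card_image_of_maps_to (f := m 0)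
    · intro y hy
      obtain ⟨hy1, hy2⟩ := hmem y hy
      have a0 := key' y hy1 hy2 0
      rw [hv0, one_mul] at a0
      have hyL : |(y : ℝ)| ≤ L := by exact_mod_cast hy1
      rw [hM', Finset.mem_filter, Finset.mem_Icc]
      refine ⟨abs_le.mp ?_, ?_⟩
      · have b1 : |(m 0 y : ℝ)| ≤ L / f + 1 / 50 := by
          have e : (m 0 y : ℝ) = (y : ℝ) / f - ((y : ℝ) / f - m 0 y) := by ring
          rw [e]
          refine (abs_sub _ _).trans ?_
          rw [abs_div, abs_of_pos hf0]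
          have : |(y : ℝ)| / f ≤ L / f := div_le_div_of_nonneg_right hyL hf0.le
          linarith
        have b2 : (m 0 y).natAbs ≤ T := by
          apply Nat.le_floor
          rw [Nat.cast_natAbs]
          push_cast
          exact b1
        have b3 : |m 0 y| = ((m 0 y).natAbs : ℤ) := (Int.natCast_natAbs _).symm
        rw [b3]
        exact_mod_cast b2
      · have c1 := hm01 y hy1 hy2
        exact (round_le _ _).trans c1
    · intro b _
      apply card_ap _ P hP0 B
      · intro x hx y hy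
        rw [Finset.mem_filter] at hx hy
        obtain ⟨hx1, hx2⟩ := hmem x hx.1
        obtain ⟨hy1, hy2⟩ := hmem y hy.1
        have h0 : m 0 x = m 0 y := hx.2.trans hy.2.symm
        have h1 : m 1 x = m 1 y := by
          have c1 := hm01 x hx1 hx2
          have c2 := hm01 y hy1 hy2
          rw [← h0] at c2
          have c3 : |(m 1 x : ℝ) - m 1 y| < 1 := by
            have e : (m 1 x : ℝ) - m 1 y = (Real.sqrt 2 * (m 0 x : ℝ) - m 1 y) -
                (Real.sqrt 2 * (m 0 x : ℝ) - m 1 x) := by ring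
            rw [e]
            refine lt_of_le_of_lt (abs_sub _ _) ?_
            linarith
          have c4 : |m 1 x - m 1 y| < 1 := by exact_mod_cast c3
          have c5 := Int.abs_lt_one_iff.mp c4
          omega
        have hdv : ∀ j, m j x = m j y → (p k j : ℤ) ∣ x - y := by
          intro j hj
          have h3 : (p k j : ℤ) ∣ s k j 10 * (x - y) := by
            refine ⟨round (A j 10 * x) - round (A j 10 * y), ?_⟩
            simp only [hm] at hj
            linarith
          exact (hG.copr k j).symm.dvd_of_dvd_mul_left h3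
        have hd0' := hdv 0 h0
        have hd1' := hdv 1 h1
        have hp0 : p k 0 = D k := by simp [p]
        have hp1 : p k 1 = E k := by simp [p]
        rw [hp0] at hd0'
        rw [hp1] at hd1'
        rw [hP]
        push_cast
        exact (coprDE k).mul_dvd hd0' hd1'
      · intro x hx y hy
        rw [Finset.mem_filter] at hx hy
        obtain ⟨hx1, hx2⟩ := hmem x hx.1
        obtain ⟨hy1, hy2⟩ := hmem y hy.1
        have h0 : m 0 x = m 0 y := hx.2.trans hy.2.symm
        have ax := key' x hx1 hx2 0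
        have ay := key' y hy1 hy2 0
        rw [hv0, one_mul] at ax ay
        rw [← h0] at ay
        apply le_min
        · have e : (x : ℝ) - y = f * (((x : ℝ) / f - m 0 x) - ((y : ℝ) / f - m 0 x)) := by
            field_simp
            ring
          rw [e, abs_mul, abs_of_pos hf0]
          have : |((x : ℝ) / f - m 0 x) - ((y : ℝ) / f - m 0 x)| ≤ 4 * ψ * d := by
            refine (abs_sub _ _).trans ?_
            linarith
          calc f * _ ≤ f * (4 * ψ * d) := mul_le_mul_of_nonneg_left this hf0.le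
            _ = 4 * ψ * d * f := by ring
        · have hxL : |(x : ℝ)| ≤ L := by exact_mod_cast hx1
          have hyL : |(y : ℝ)| ≤ L := by exact_mod_cast hy1
          refine (abs_sub _ _).trans ?_
          linarith
  have hPr : d ^ 2 / 3 ≤ (P : ℝ) := by
    have h1 : d ≤ 3 * (E k : ℝ) := by
      have := (D_lt k).le
      rw [hd]
      exact_mod_cast this
    have h2 : (P : ℝ) = d * E k := by rw [hP, hd]; push_cast; ring
    rw [h2]
    nlinarith
  have hPr0 : (0 : ℝ) < P := by exact_mod_cast hP0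
  set mn : ℝ := min (d * ψ * f) L with hmn
  have hmn0 : 0 ≤ mn := le_min (by positivity) (by positivity)
  have hBm : B ≤ 4 * mn := by
    rw [hmn, hB]
    rcases min_choice (d * ψ * f) (L : ℝ) with h | h
    · rw [h]
      refine (min_le_left _ _).trans ?_
      linarith
    · rw [h]
      refine (min_le_right _ _).trans ?_
      have : (0 : ℝ) ≤ L := by positivity
      linarith
  have hBP : B / P ≤ 12 * (mn / d ^ 2) := by
    calc B / P ≤ (4 * mn) / (d ^ 2 / 3) := by
          apply div_le_div₀ (by positivity) hBm (by positivity) hPr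
      _ = 12 * (mn / d ^ 2) := by field_simp; ring
  have hX0 : 0 ≤ (L : ℝ) * d * ψ / f := by positivity
  have hMc2 : (M'.card : ℝ) ≤ 1 + 10 * C0 * (L * d * ψ / f) := by
    refine hMc.trans ?_
    have : C0 * T * (5 * ψ * d) ≤ C0 * (2 * (L / f)) * (5 * ψ * d) := by
      apply mul_le_mul_of_nonneg_right _ (by positivity)
      exact mul_le_mul_of_nonneg_left hTle hC0.le
    have e : C0 * (2 * (L / f)) * (5 * ψ * d) = 10 * C0 * (L * d * ψ / f) := by ring
    linarith
  rw [hcnt]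
  have hfin : (S'.card : ℝ) ≤ (12 * (mn / d ^ 2) + 1) * (1 + 10 * C0 * (L * d * ψ / f)) := by
    have h1 : (S'.card : ℝ) ≤ ((⌊B / P⌋₊ : ℝ) + 1) * M'.card := by exact_mod_cast hcard
    have h2 : (⌊B / P⌋₊ : ℝ) ≤ B / P := Nat.floor_le (by positivity)
    refine h1.trans ?_
    exact mul_le_mul (by linarith) hMc2 (Nat.cast_nonneg _) (by positivity)
  refine hfin.trans ?_
  have hY0 : 0 ≤ mn / d ^ 2 := by positivity
  set X : ℝ := (L : ℝ) * d * ψ / f with hX
  set Y : ℝ := mn / d ^ 2 with hY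
  calc (12 * Y + 1) * (1 + 10 * C0 * X) ≤ (12 * (1 + Y)) * ((1 + 10 * C0) * (1 + X)) := by
        apply mul_le_mul
        · linarith
        · nlinarith
        · positivity
        · positivity
    _ = 12 * (1 + 10 * C0) * (1 + X) * (1 + Y) := by ring

end Pool.Agent.W445.KT
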